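import Mathlib

namespace Pool.Agent.Results.MP_757726_co.Q1

variable {A : Type}

/-- involutory antimorphism of the free monoid `A^*` -/
def IsAnti (θ : List A → List A) : Prop :=
  (∀ v w, θ (v ++ w) = θ w ++ θ v) ∧ ∀ w, θ (θ w) = w

/-- `z` is the shortest `θ`-palindrome with prefix `w` -/
def IsClosure (θ : List A → List A) (w z : List A) : Prop :=
  θ z = z ∧ w <+: z ∧ ∀ z', θ z' = z' → w <+: z' → z.length ≤ z'.length

/-- prefix of length `l` of the infinite word `u` -/
def pref (u : ℕ → A) (l : ℕ) : List A := (List.range l).map u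

/-- `(Δ, Θ)` is a directive bi-sequence of `u`, with `W n = w_n`
(`Δ n = δ_{n+1}`, `Θ n = ϑ_{n+1}`) -/
def Generates (Δ : ℕ → A) (Θ : ℕ → List A → List A) (W : ℕ → List A) (u : ℕ → A) : Prop :=
  (∀ n, IsAnti (Θ n)) ∧ W 0 = [] ∧ (∀ n, IsClosure (Θ n) (W n ++ [Δ n]) (W (n + 1))) ∧
    ∀ n, W n = pref u (W n).length

/-- every pseudopalindromic prefix of `u` is some `w_n` -/
def Normalized (W : ℕ → List A) (u : ℕ → A) : Prop :=
  ∀ l θ, IsAnti θ → θ (pref u l) = pref u l → ∃ n, W n = pref u l

/-- `u = w v^ω` -/
def IsPeriodic (u : ℕ → A) : Prop :=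
  ∃ (w v : List A) (hv : 0 < v.length), pref u w.length = w ∧
    ∀ i, u (w.length + i) = v[i % v.length]'(Nat.mod_lt _ hv)

lemma pref_length (u : ℕ → A) (l : ℕ) : (pref u l).length = l := by simp [pref]

lemma pref_get (u : ℕ → A) (l i : ℕ) (h : i < (pref u l).length) : (pref u l)[i] = u i := by
  simp [pref]

lemma anti_form {θ : List A → List A} (h : IsAnti θ) :
    ∃ π : A → A, (∀ a, π (π a) = a) ∧ ∀ w, θ w = (w.map π).reverse := by
  obtain ⟨h1, h2⟩ := h
  have h0 : θ [] = [] := by
    have := congrArg List.length (h1 [] [])
    simp only [List.append_nil, List.length_append] at this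
    exact List.length_eq_zero_iff.mp (by omega)
  have hne : ∀ a, 1 ≤ (θ [a]).length := by
    intro a
    by_contra hc
    have : θ [a] = [] := List.length_eq_zero_iff.mp (by omega)
    have h3 := h2 [a]
    rw [this, h0] at h3
    simp at h3
  have hge : ∀ w : List A, w.length ≤ (θ w).length := by
    intro w
    induction w with
    | nil => simp
    | cons a w ih =>
      have := h1 [a] w
      simp only [List.singleton_append] at this
      rw [this]
      have := hne a
      simp only [List.length_cons, List.length_append]
      omega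
  have hone : ∀ a, ∃ b, θ [a] = [b] := by
    intro a
    have h3 := hge (θ [a])
    rw [h2] at h3
    have h4 := hne a
    simp only [List.length_singleton] at h3
    exact List.length_eq_one_iff.mp (by omega)
  choose π hπ using hone
  refine ⟨π, ?_, ?_⟩
  · intro a
    have := h2 [a]
    rw [hπ, hπ] at this
    simpa using this
  · intro w
    induction w with
    | nil => simpa using h0
    | cons a w ih =>
      have := h1 [a] w
      simp only [List.singleton_append] at this
      rw [this, ih, hπ]
      simp

lemma form_anti {π : A → A} (h : ∀ a, π (π a) = a) :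
    IsAnti (fun w : List A => (w.map π).reverse) := by
  refine ⟨fun v w => by simp, fun w => ?_⟩
  have : π ∘ π = id := funext h
  simp [List.map_reverse, this]

def Pal (u : ℕ → A) (π : A → A) (l : ℕ) : Prop := ∀ i j, i + j + 1 = l → u j = π (u i)

lemma pal_iff (u : ℕ → A) (π : A → A) (l : ℕ) :
    ((pref u l).map π).reverse = pref u l ↔ Pal u π l := by
  constructor
  · intro h i j hij
    have h1 : j < (pref u l).length := by rw [pref_length]; omega
    have h2 := List.getElem_of_eq h.symm h1
    rw [pref_get] at h2
    rw [h2]
    simp only [List.getElem_reverse, List.getElem_map, pref_get, List.length_map, pref_length]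
    congr 2
    omega
  · intro h
    apply List.ext_getElem
    · simp
    · intro i h1 h2
      simp only [List.getElem_reverse, List.getElem_map, pref_get, List.length_map, pref_length]
      rw [pref_length] at h2
      exact (h _ _ (by omega)).symm

lemma periodic_iff (u : ℕ → A) :
    IsPeriodic u ↔ ∃ m p, 0 < p ∧ ∀ j, m ≤ j → u (j + p) = u j := by
  constructor
  · rintro ⟨w, v, hv, -, h⟩
    refine ⟨w.length, v.length, hv, fun j hj => ?_⟩
    obtain ⟨i, rfl⟩ := Nat.exists_eq_add_of_le hj
    rw [add_assoc, h, h]
    simp
  · rintro ⟨m, p, hp, h⟩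
    have key : ∀ t r, u (m + (r + p * t)) = u (m + r) := by
      intro t r
      induction t with
      | zero => simp
      | succ t ih =>
        rw [← ih, ← h (m + (r + p * t)) (by omega)]
        congr 1
        ring
    refine ⟨pref u m, pref (fun i => u (m + i)) p, by rw [pref_length]; exact hp, ?_, ?_⟩
    · rw [pref_length]
    · intro i
      rw [pref_get]
      simp only [pref_length]
      rw [← key (i / p) (i % p), Nat.mod_add_div]

theorem result [Fintype A] (Δ : ℕ → A) (Θ : ℕ → List A → List A) (W : ℕ → List A) (u : ℕ → A)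
    (hgen : Generates Δ Θ W u) (hnorm : Normalized W u) (hd : Function.Surjective u) :
    IsPeriodic u ↔ ∃ k,
      (∀ i j, Θ (k + i) [Δ (k + i + 1)] = Θ (k + j) [Δ (k + j + 1)]) ∧
      (∀ i w, Θ (k + i) w = w → Θ (k + i + 2) (Θ (k + i + 1) w) = Θ (k + i + 1) w) := by
  classical
  obtain ⟨hanti, hW0, hcl, hpre⟩ := hgen
  choose π hinv hform using fun n => anti_form (hanti n)
  set l : ℕ → ℕ := fun n => (W n).length with hl
  have hlt : ∀ n, l n < l (n + 1) := by
    intro n
    have := (hcl n).2.1.length_le
    simp only [List.length_append, List.length_singleton] at this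
    exact this
  have hmono : StrictMono l := strictMono_nat_of_lt_succ hlt
  have hge : ∀ n, n ≤ l n := fun n => hmono.id_le n
  have hΔ : ∀ n, u (l n) = Δ n := by
    intro n
    have h1 := (hcl n).2.1
    have h2 : l n < (W n ++ [Δ n]).length := by simp [hl]
    have h3 := h1.getElem h2
    have h4 := List.getElem_of_eq (hpre (n + 1)) (show l n < (W (n + 1)).length from hlt n)
    rw [pref_get] at h4
    rw [← h4, ← h3]
    simp [hl]
  have hpal : ∀ n, Pal u (π n) (l (n + 1)) := by
    intro n
    rw [← pal_iff, ← hform, ← hpre]
    exact (hcl n).1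
  have hnm : ∀ (ρ : A → A) e, (∀ a, ρ (ρ a) = a) → Pal u ρ e → ∃ n, l n = e := by
    intro ρ e h1 h2
    obtain ⟨n, hn⟩ := hnorm e _ (form_anti h1) ((pal_iff u ρ e).mpr h2)
    exact ⟨n, by simp only [hl]; rw [hn, pref_length]⟩
  have hmin : ∀ n (f : ℕ → A) L, (∀ j, j ≤ l n → f j = u j) → l n < L → Pal f (π n) L →
      l (n + 1) ≤ L := by
    intro n f L h1 h2 h3
    have := (hcl n).2.2 (pref f L) (by rw [hform]; exact (pal_iff f _ L).mpr h3) (by
      have e : W n ++ [Δ n] = pref f (l n + 1) := by
        rw [hpre n, ← hΔ n]
        simp only [pref, List.range_succ, List.map_append, List.map_singleton]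
        rw [h1 _ le_rfl]
        congr 1
        apply List.map_congr_left
        intro j hj
        exact (h1 j (List.mem_range.mp hj).le).symm
      rw [e]
      exact (List.prefix_iff_eq_take.mpr (by
        rw [List.length_range, List.take_range, min_eq_left (by omega)]) :
          List.range (l n + 1) <+: List.range L).map f)
    rwa [pref_length] at this
  rw [periodic_iff]
  constructor
  · rintro ⟨m, p, hp, h⟩
    have hper : ∀ j, u (j + p) = u j := by
      intro j
      have h1 := hge (m + p + j + 1)
      obtain ⟨t, ht⟩ := Nat.exists_eq_add_of_le h1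
      have e1 := hpal (m + p + j) (m + t) (j + p) (by omega)
      have e2 := hpal (m + p + j) (m + t + p) j (by omega)
      rw [e1, e2, h (m + t) (by omega)]
    have key : ∀ t r, u (r + p * t) = u r := by
      intro t r
      induction t with
      | zero => simp
      | succ t ih =>
        rw [← ih, ← hper (r + p * t)]
        congr 1
        ring
    have hp' : (0 : ℤ) < p := by exact_mod_cast hp
    let X : ℤ → A := fun z => u (z % p).toNat
    have hXn : ∀ n : ℕ, X n = u n := by
      intro n
      have : ((n : ℤ) % p).toNat = n % p := by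
        rw [← Int.natCast_mod, Int.toNat_natCast]
      simp only [X, this]
      rw [← key (n / p) (n % p), Nat.mod_add_div]
    have hS : ∀ n, p ≤ n → ∀ z : ℤ, X (l (n + 1) - 1 - z) = π n (X z) := by
      intro n hn z
      have h1 := hge (n + 1)
      have h2 := Int.emod_nonneg z hp'.ne'
      have h3 := Int.emod_lt_of_pos z hp'
      obtain ⟨r, hr⟩ := Int.eq_ofNat_of_zero_le h2
      have e1 : X z = u r := by simp only [X, hr, Int.toNat_natCast]
      have e2 : X (l (n + 1) - 1 - z) = X ((l (n + 1) - 1 - r : ℕ) : ℤ) := by
        simp only [X]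
        congr 2
        have e3 : ((l (n + 1) - 1 - r : ℕ) : ℤ) = (l (n + 1) - 1 - z) + p * (z / p) := by
          have := Int.emod_add_mul_ediv z p
          omega
        rw [e3, Int.add_mul_emod_self_left]
      rw [e1, e2, hXn]
      exact hpal n r _ (by omega)
    have hC : ∀ a b, p ≤ a → p ≤ b → ∀ z : ℤ,
        X (2 * l (b + 1) - l (a + 1) - 1 - z) = π b (π a (π b (X z))) := by
      intro a b ha hb z
      rw [← hS b hb, ← hS a ha, ← hS b hb]
      congr 1
      ring
    have hC' : ∀ a b, p ≤ a → p ≤ b → l (a + 1) ≤ 2 * l (b + 1) →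
        ∃ n, l n + l (a + 1) = 2 * l (b + 1) := by
      intro a b ha hb hab
      obtain ⟨n, hn⟩ := hnm (fun x => π b (π a (π b x))) (2 * l (b + 1) - l (a + 1))
        (fun x => by simp only [hinv]) (by
          intro i j hij
          have := hC a b ha hb i
          rw [hXn] at this
          show u j = π b (π a (π b (u i)))
          rw [← this, ← hXn]
          congr 1
          omega)
      exact ⟨n, by omega⟩
    have hrel : ∀ n, p ≤ n → ∀ x, π (n + 2) x = π (n + 1) (π n (π (n + 1) x)) := by
      intro n hn x
      have t1 : l (n + 1) < l (n + 1 + 1) := hlt _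
      have t2 : l (n + 1 + 1) < l (n + 2 + 1) := hlt _
      obtain ⟨s, hs⟩ := hC' n (n + 1) hn (by omega) (by omega)
      have t3 : l (n + 2 + 1) ≤ l s :=
        hmono.monotone (show n + 1 + 1 < s from hmono.lt_iff_lt.mp (by omega))
      obtain ⟨s', hs'⟩ := hC' (n + 2) (n + 1) (by omega) (by omega) (by omega)
      have t4 : l s' ≤ l (n + 1) :=
        hmono.monotone (Nat.lt_succ_iff.mp
          (show s' < n + 1 + 1 from hmono.lt_iff_lt.mp (by omega)))
      obtain ⟨i, rfl⟩ := hd x
      rw [← hXn, ← hS (n + 2) (by omega), ← hC n (n + 1) hn (by omega)]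
      congr 1
      omega
    refine ⟨p, ?_, ?_⟩
    · have : ∀ i, Θ (p + i) [Δ (p + i + 1)] = [X (-1)] := by
        intro i
        rw [hform, ← hΔ, ← hXn]
        simp only [List.map_singleton, List.reverse_singleton]
        rw [← hS (p + i) (by omega)]
        congr 2
        ring
      intro i j
      rw [this, this]
    · intro i w hw
      rw [hform] at hw
      rw [hform, hform]
      have e : π (p + i + 2) ∘ π (p + i + 1) = π (p + i + 1) ∘ π (p + i) := by
        funext x
        simp only [Function.comp, hrel (p + i) (by omega), hinv]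
      conv_rhs => rw [← hw]
      simp only [List.map_reverse, List.reverse_reverse, List.map_map, e]
  · rintro ⟨k, h1, h2⟩
    have c1 : ∀ n, k ≤ n → π (n + 1) (u (l (n + 2))) = π n (u (l (n + 1))) := by
      intro n hn
      obtain ⟨i, rfl⟩ := Nat.exists_eq_add_of_le hn
      have := h1 (i + 1) i
      rw [hform, hform] at this
      rw [hΔ, hΔ]
      simpa [add_assoc] using this
    have c2 : ∀ n, k ≤ n → ∀ x, π (n + 2) (π (n + 1) x) = π (n + 1) (π n x) := by
      intro n hn x
      obtain ⟨i, rfl⟩ := Nat.exists_eq_add_of_le hn
      have := h2 i [x, π (k + i) x] (by rw [hform]; simp [hinv])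
      rw [hform, hform] at this
      simp only [List.map_cons, List.map_nil, List.reverse_cons, List.reverse_nil,
        List.nil_append, List.cons_append, List.cons.injEq] at this
      exact this.1
    have c3 : ∀ n, k ≤ n → l (n + 3) + l (n + 1) ≤ 2 * l (n + 2) := by
      intro n hn
      have t1 : l (n + 1) < l (n + 2) := hlt _
      have pa := hpal n
      have pb : Pal u (π (n + 1)) (l (n + 2)) := hpal (n + 1)
      have q1 := c1 n hn
      have q2 := c2 n hn
      have := hmin (n + 2) (fun j => if j ≤ l (n + 2) then u j else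
        π (n + 2) (u (2 * l (n + 2) - l (n + 1) - 1 - j))) (2 * l (n + 2) - l (n + 1))
        (fun j hj => by simp only [hj, if_true]) (by omega) (by
          have top : ∀ i, i + l (n + 2) + 1 = 2 * l (n + 2) - l (n + 1) →
              u (l (n + 2)) = π (n + 2) (u i) := by
            intro i hi
            rw [pb (l (n + 1)) i (by omega), q2, ← q1, hinv]
          intro i j hij
          by_cases hi : i ≤ l (n + 2) <;> by_cases hj : j ≤ l (n + 2)
          · simp only [hi, hj, if_true]
            rcases hj.eq_or_lt with hj | hj
            · subst hj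
              exact top i hij
            rcases hi.eq_or_lt with hi | hi
            · subst hi
              rw [top j (by omega), hinv]
            rw [pb (l (n + 2) - 1 - j) j (by omega), pb (l (n + 2) - 1 - i) i (by omega), q2,
              pa (l (n + 2) - 1 - i) (l (n + 2) - 1 - j) (by omega)]
          · simp only [hi, hj, if_true, if_false]
            congr 2
            omega
          · simp only [hi, hj, if_true, if_false, hinv]
            congr 1
            omega
          · omega)
      have t : l (n + 2 + 1) = l (n + 3) := rfl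
      omega
    have hex : ∃ q, ∃ n, k ≤ n ∧ l (n + 2) = l (n + 1) + q := by
      have t1 : l (k + 1) < l (k + 2) := hlt _
      exact ⟨l (k + 2) - l (k + 1), k, le_rfl, by omega⟩
    obtain ⟨n0, hn0, hq⟩ := Nat.find_spec hex
    have hqmin : ∀ n, k ≤ n → l (n + 1) + Nat.find hex ≤ l (n + 2) := by
      intro n hn
      have t1 : l (n + 1) < l (n + 2) := hlt _
      have := Nat.find_min' hex (m := l (n + 2) - l (n + 1)) ⟨n, hn, by omega⟩
      omega
    set q := Nat.find hex with hqdef
    have hq0 : 0 < q := by
      have t1 : l (n0 + 1) < l (n0 + 2) := hlt _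
      omega
    have hall : ∀ t, l (n0 + t + 2) = l (n0 + t + 1) + q ∧
        ∀ x, π (n0 + t + 1) (π (n0 + t) x) = π (n0 + 1) (π n0 x) := by
      intro t
      induction t with
      | zero => exact ⟨hq, fun x => rfl⟩
      | succ t ih =>
        constructor
        · have a1 := c3 (n0 + t) (by omega)
          have a2 : l (n0 + t + 2) + q ≤ l (n0 + t + 3) := hqmin (n0 + t + 1) (by omega)
          have a3 := ih.1
          show l (n0 + t + 3) = l (n0 + t + 2) + q
          omega
        · intro x
          rw [← ih.2]
          exact c2 (n0 + t) (by omega) x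
    let ρ : Equiv.Perm A :=
      Function.Involutive.toPerm (π (n0 + 1)) (hinv _) * Function.Involutive.toPerm (π n0) (hinv _)
    have hstep : ∀ m, u (m + q) = ρ (u m) := by
      intro m
      have a1 := hge (n0 + m + 1)
      have a2 := (hall m).1
      have pb : Pal u (π (n0 + m + 1)) (l (n0 + m + 2)) := hpal (n0 + m + 1)
      rw [pb (l (n0 + m + 1) - 1 - m) (m + q) (by omega),
        hpal (n0 + m) m (l (n0 + m + 1) - 1 - m) (by omega), (hall m).2]
      rfl
    have hpow : ∀ N m, u (m + q * N) = (ρ ^ N) (u m) := by
      intro N m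
      induction N with
      | zero => simp
      | succ N ih =>
        rw [pow_succ', Equiv.Perm.mul_apply, ← ih, ← hstep]
        congr 1
        ring
    refine ⟨0, q * orderOf ρ, Nat.mul_pos hq0 (orderOf_pos ρ), fun j _ => ?_⟩
    rw [hpow, pow_orderOf_eq_one]
    rfl

end Pool.Agent.Results.MP_757726_co.Q1
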